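import Mathlib

set_option autoImplicit false

open Filter Topology

namespace Pool.Agent.Results.MP_4ba7b3_gt.SupNotCompatible

/-- D-sequences: sequences of positive integers with `b 0 = 1`, `b n ∣ b (n + 1)` and
`b n ≠ b (n + 1)`. -/
def IsD (b : ℕ → ℕ) : Prop :=
  b 0 = 1 ∧ (∀ n, 0 < b n) ∧ ∀ n, b n ∣ b (n + 1) ∧ b n ≠ b (n + 1)

/-- The class `D_∞`: D-sequences with `b (n + 1) / b n → ∞`. -/
def IsDInf (b : ℕ → ℕ) : Prop :=
  IsD b ∧ Tendsto (fun n => (b (n + 1) : ℝ) / b n) atTop atTop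

/-- The distance to the nearest integer. -/
noncomputable def nrm (x : ℝ) : ℝ := |x - round x|

lemma nrm_zero : nrm 0 = 0 := by simp [nrm]

lemma nrm_neg (x : ℝ) : nrm (-x) = nrm x := by
  have h1 : ∀ y : ℝ, nrm (-y) ≤ nrm y := by
    intro y
    have := round_le (-y) (-(round y))
    calc nrm (-y) = |-y - round (-y)| := rfl
      _ ≤ |-y - ((-(round y) : ℤ) : ℝ)| := this
      _ = |y - round y| := by
        rw [← abs_neg]
        congr 1
        push_cast
        ring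
  apply le_antisymm (h1 x)
  simpa using h1 (-x)

lemma nrm_add (x y : ℝ) : nrm (x + y) ≤ nrm x + nrm y := by
  have := round_le (x + y) (round x + round y)
  calc nrm (x + y) = |x + y - round (x + y)| := rfl
    _ ≤ |x + y - ((round x + round y : ℤ) : ℝ)| := this
    _ = |(x - round x) + (y - round y)| := by
      congr 1
      push_cast
      ring
    _ ≤ _ := abs_add_le _ _

/-- The neighbourhoods of `0` for `τ_c`. -/
def V (c : ℕ → ℕ) (ε : ℝ) : Set ℤ := {k | ∀ n, 1 ≤ n → nrm ((k : ℝ) / c n) ≤ ε}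

/-- The filter basis at `0` of all the sets `{k | ‖k / c n‖ ≤ ε for all n ≥ 1}`, `ε > 0`. -/
@[reducible] def tauBasis (c : ℕ → ℕ) : AddGroupFilterBasis ℤ where
  sets := {U | ∃ ε : ℝ, 0 < ε ∧ U = V c ε}
  nonempty := ⟨V c 1, 1, one_pos, rfl⟩
  inter_sets := by
    rintro _ _ ⟨e, he, rfl⟩ ⟨e', he', rfl⟩
    exact ⟨V c (min e e'), ⟨min e e', lt_min he he', rfl⟩, fun k hk =>
      ⟨fun n hn => (hk n hn).trans (min_le_left _ _), fun n hn => (hk n hn).trans (min_le_right _ _)⟩⟩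
  zero' := by
    rintro _ ⟨e, he, rfl⟩ n _
    simpa [nrm_zero] using he.le
  add' := by
    rintro _ ⟨e, he, rfl⟩
    refine ⟨V c (e / 2), ⟨e / 2, by positivity, rfl⟩, ?_⟩
    rintro _ ⟨x, hx, y, hy, rfl⟩ n hn
    have h1 := hx n hn
    have h2 := hy n hn
    have h3 := nrm_add ((x : ℝ) / c n) ((y : ℝ) / c n)
    have e1 : (((x + y : ℤ) : ℝ)) / c n = (x : ℝ) / c n + (y : ℝ) / c n := by
      push_cast
      ring
    show nrm (((x + y : ℤ) : ℝ) / c n) ≤ e
    rw [e1]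
    linarith
  neg' := by
    rintro _ ⟨e, he, rfl⟩
    refine ⟨V c e, ⟨e, he, rfl⟩, ?_⟩
    intro x hx n hn
    have h1 := hx n hn
    have e1 : (((-x : ℤ) : ℝ)) / c n = -((x : ℝ) / c n) := by
      push_cast
      ring
    rw [e1, nrm_neg]
    exact h1
  conj' := by
    rintro x _ ⟨e, he, rfl⟩
    refine ⟨V c e, ⟨e, he, rfl⟩, ?_⟩
    intro y hy
    simpa using hy

/-- The filter basis at `0` of the subgroups `b n ℤ`.  (For a D-sequence `b` the integers divisible
by all of `b 0, …, b n` are the multiples of `b n`.) -/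
@[reducible] def lamBasis (b : ℕ → ℕ) : AddGroupFilterBasis ℤ where
  sets := {U | ∃ n : ℕ, U = {k | ∀ i ≤ n, (b i : ℤ) ∣ k}}
  nonempty := ⟨_, 0, rfl⟩
  inter_sets := by
    rintro _ _ ⟨n, rfl⟩ ⟨m, rfl⟩
    exact ⟨_, ⟨max n m, rfl⟩, fun k hk =>
      ⟨fun i hi => hk i (hi.trans (le_max_left _ _)), fun i hi => hk i (hi.trans (le_max_right _ _))⟩⟩
  zero' := by
    rintro _ ⟨n, rfl⟩ i _
    exact dvd_zero _
  add' := by
    rintro _ ⟨n, rfl⟩
    refine ⟨_, ⟨n, rfl⟩, ?_⟩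
    rintro _ ⟨x, hx, y, hy, rfl⟩ i hi
    exact dvd_add (hx i hi) (hy i hi)
  neg' := by
    rintro _ ⟨n, rfl⟩
    refine ⟨_, ⟨n, rfl⟩, ?_⟩
    intro x hx i hi
    exact (dvd_neg).2 (hx i hi)
  conj' := by
    rintro x _ ⟨n, rfl⟩
    refine ⟨_, ⟨n, rfl⟩, ?_⟩
    intro y hy
    simpa using hy

/-- The group topology `τ_c` on `ℤ`. -/
def tau (c : ℕ → ℕ) : TopologicalSpace ℤ := (tauBasis c).topology

/-- The linear group topology `λ_b` on `ℤ`. -/
def lam (b : ℕ → ℕ) : TopologicalSpace ℤ := (lamBasis b).topology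

/-- The supremum `s_b` of the topologies `τ_c`, `c ∈ D_∞`, `λ_c = λ_b`: the coarsest topology finer
than each of them (in Mathlib's order on topologies this is an infimum). -/
def sTop (b : ℕ → ℕ) : TopologicalSpace ℤ :=
  ⨅ (c : ℕ → ℕ) (_ : IsDInf c) (_ : lam c = lam b), tau c

lemma tau_group (c : ℕ → ℕ) : @IsTopologicalAddGroup ℤ (tau c) _ :=
  AddGroupFilterBasis.isTopologicalAddGroup (tauBasis c)

lemma lam_group (b : ℕ → ℕ) : @IsTopologicalAddGroup ℤ (lam b) _ :=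
  AddGroupFilterBasis.isTopologicalAddGroup (lamBasis b)

lemma tau_basis (c : ℕ → ℕ) : (@nhds ℤ (tau c) 0).HasBasis (fun ε : ℝ => 0 < ε) (V c) := by
  have h := (tauBasis c).nhds_zero_hasBasis
  refine ⟨fun U => ?_⟩
  change U ∈ @nhds ℤ (tauBasis c).topology 0 ↔ _
  rw [h.mem_iff]
  constructor
  · rintro ⟨_, ⟨e, he, rfl⟩, hU⟩
    exact ⟨e, he, hU⟩
  · rintro ⟨e, he, hU⟩
    exact ⟨_, ⟨e, he, rfl⟩, hU⟩

lemma lam_basis (b : ℕ → ℕ) : (@nhds ℤ (lam b) 0).HasBasis (fun _ : ℕ => True)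
    (fun n => {k : ℤ | ∀ i ≤ n, (b i : ℤ) ∣ k}) := by
  have h := (lamBasis b).nhds_zero_hasBasis
  refine ⟨fun U => ?_⟩
  change U ∈ @nhds ℤ (lamBasis b).topology 0 ↔ _
  rw [h.mem_iff]
  constructor
  · rintro ⟨_, ⟨n, rfl⟩, hU⟩
    exact ⟨n, trivial, hU⟩
  · rintro ⟨n, _, hU⟩
    exact ⟨_, ⟨n, rfl⟩, hU⟩

lemma dvd_of_le {b : ℕ → ℕ} (hb : IsD b) {i n : ℕ} (h : i ≤ n) : b i ∣ b n := by
  induction n, h using Nat.le_induction with
  | base => exact dvd_rfl
  | succ n _ ih => exact ih.trans (hb.2.2 n).1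

lemma lam_basis' {b : ℕ → ℕ} (hb : IsD b) : (@nhds ℤ (lam b) 0).HasBasis (fun _ : ℕ => True)
    (fun n => {k : ℤ | (b n : ℤ) ∣ k}) := by
  have e : (fun n => {k : ℤ | (b n : ℤ) ∣ k}) = fun n => {k : ℤ | ∀ i ≤ n, (b i : ℤ) ∣ k} := by
    funext n
    ext k
    constructor
    · intro h i hi
      exact (Int.natCast_dvd_natCast.2 (dvd_of_le hb hi)).trans h
    · intro h
      exact h n le_rfl
  rw [e]
  exact lam_basis b

lemma lam_eq {b c : ℕ → ℕ} (hb : IsD b) (hc : IsD c) (h1 : ∀ n, ∃ m, b n ∣ c m)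
    (h2 : ∀ n, ∃ m, c n ∣ b m) : lam c = lam b := by
  apply IsTopologicalAddGroup.ext (lam_group c) (lam_group b)
  apply le_antisymm
  · rw [(lam_basis' hc).le_basis_iff (lam_basis' hb)]
    intro n _
    obtain ⟨m, hm⟩ := h1 n
    exact ⟨m, trivial, fun k hk => (Int.natCast_dvd_natCast.2 hm).trans hk⟩
  · rw [(lam_basis' hb).le_basis_iff (lam_basis' hc)]
    intro n _
    obtain ⟨m, hm⟩ := h2 n
    exact ⟨m, trivial, fun k hk => (Int.natCast_dvd_natCast.2 hm).trans hk⟩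

/-! ### The sequences -/

/-- `p i = 2 ^ (i + 2) - 1`: `3, 7, 15, 31, …`, given by `p (i + 1) = 2 p i + 1`. -/
def p : ℕ → ℕ
  | 0 => 3
  | i + 1 => 2 * p i + 1

lemma p_pos (i : ℕ) : i + 3 ≤ p i := by
  induction i with
  | zero => simp [p]
  | succ i ih => simp only [p]; omega

lemma p_odd (i : ℕ) : p i % 2 = 1 := by
  cases i with
  | zero => simp [p]
  | succ i => simp only [p]; omega

/-- `a n = p 0 ⋯ p (n - 1)`. -/
def a : ℕ → ℕ
  | 0 => 1
  | n + 1 => a n * p n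

lemma a_pos (n : ℕ) : 0 < a n := by
  induction n with
  | zero => simp [a]
  | succ n ih => exact Nat.mul_pos ih (by have := p_pos n; omega)

lemma a_odd (n : ℕ) : a n % 2 = 1 := by
  induction n with
  | zero => simp [a]
  | succ n ih =>
    show (a n * p n) % 2 = 1
    rw [Nat.mul_mod, ih, p_odd n]

lemma a_lt (n : ℕ) : a n < a (n + 1) := by
  show a n < a n * p n
  have := p_pos n
  have := a_pos n
  nlinarith

lemma a_ge (n : ℕ) : n < a n := by
  induction n with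
  | zero => simp [a]
  | succ n ih => have := a_lt n; omega

lemma a_dvd {i n : ℕ} (h : i ≤ n) : a i ∣ a n := by
  induction n, h using Nat.le_induction with
  | base => exact dvd_rfl
  | succ n _ ih => exact ih.trans ⟨p n, rfl⟩

/-- `c j = a j p (j + 1)`. -/
def c (j : ℕ) : ℕ := a j * p (j + 1)

/-- The chain of the `c j` with `j` odd, preceded by `1`. -/
def e : ℕ → ℕ
  | 0 => 1
  | n + 1 => c (2 * n + 1)

/-- The chain of the `c j` with `j` even, preceded by `1`. -/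
def o : ℕ → ℕ
  | 0 => 1
  | n + 1 => c (2 * n)

lemma c_pos (j : ℕ) : 0 < c j := Nat.mul_pos (a_pos j) (by have := p_pos (j + 1); omega)

lemma c_succ (j : ℕ) : c (j + 2) = c j * (p j * p (j + 3)) := by
  show a j * p j * p (j + 1) * p (j + 2 + 1) = a j * p (j + 1) * (p j * p (j + 3))
  ring

lemma c_gt (j : ℕ) : 1 < c j := by
  show 1 < a j * p (j + 1)
  have := a_pos j
  have := p_pos (j + 1)
  nlinarith

lemma c_lt (j : ℕ) : c j < c (j + 2) := by
  rw [c_succ]
  have h1 := c_pos j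
  have h2 := p_pos j
  have h3 := p_pos (j + 3)
  have h4 : 1 < p j * p (j + 3) := by nlinarith
  nlinarith

lemma c_dvd_a (j : ℕ) : c j ∣ a (j + 2) := by
  refine ⟨p j, ?_⟩
  show a j * p j * p (j + 1) = a j * p (j + 1) * p j
  ring

lemma isDInf_a : IsDInf a := by
  refine ⟨⟨rfl, a_pos, fun n => ⟨⟨p n, rfl⟩, (a_lt n).ne⟩⟩, ?_⟩
  refine tendsto_atTop_mono (fun n => ?_) tendsto_natCast_atTop_atTop
  have h : ((a (n + 1) : ℕ) : ℝ) = a n * p n := by
    show (((a n * p n : ℕ)) : ℝ) = _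
    push_cast
    rfl
  have h0 : (0 : ℝ) < a n := by exact_mod_cast a_pos n
  rw [h, mul_div_cancel_left₀ _ h0.ne']
  have := p_pos n
  exact_mod_cast (by omega : n ≤ p n)

lemma ratio (j : ℕ) (n : ℕ) (h : n ≤ j) : (n : ℝ) ≤ (c (j + 2) : ℝ) / c j := by
  have h0 : (0 : ℝ) < c j := by exact_mod_cast c_pos j
  rw [le_div_iff₀ h0]
  have h1 : n * c j ≤ c (j + 2) := by
    rw [c_succ]
    have h2 := p_pos j
    have h3 := p_pos (j + 3)
    have h4 : n ≤ p j * p (j + 3) := by nlinarith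
    calc n * c j = c j * n := by ring
      _ ≤ c j * (p j * p (j + 3)) := Nat.mul_le_mul_left _ h4
  exact_mod_cast h1

lemma isDInf_e : IsDInf e := by
  refine ⟨⟨rfl, ?_, ?_⟩, ?_⟩
  · intro n
    cases n with
    | zero => simp [e]
    | succ n => exact c_pos _
  · intro n
    cases n with
    | zero => exact ⟨one_dvd _, (c_gt _).ne⟩
    | succ n => exact ⟨⟨_, c_succ (2 * n + 1)⟩, (c_lt (2 * n + 1)).ne⟩
  · rw [← tendsto_add_atTop_iff_nat 1]
    refine tendsto_atTop_mono (fun n => ?_) tendsto_natCast_atTop_atTop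
    exact ratio (2 * n + 1) n (by omega)

lemma isDInf_o : IsDInf o := by
  refine ⟨⟨rfl, ?_, ?_⟩, ?_⟩
  · intro n
    cases n with
    | zero => simp [o]
    | succ n => exact c_pos _
  · intro n
    cases n with
    | zero => exact ⟨one_dvd _, (c_gt _).ne⟩
    | succ n => exact ⟨⟨_, c_succ (2 * n)⟩, (c_lt (2 * n)).ne⟩
  · rw [← tendsto_add_atTop_iff_nat 1]
    refine tendsto_atTop_mono (fun n => ?_) tendsto_natCast_atTop_atTop
    exact ratio (2 * n) n (by omega)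

lemma lam_e : lam e = lam a := by
  apply lam_eq isDInf_a.1 isDInf_e.1
  · intro n
    exact ⟨n + 1, (a_dvd (by omega : n ≤ 2 * n + 1)).trans ⟨p (2 * n + 1 + 1), rfl⟩⟩
  · intro n
    cases n with
    | zero => exact ⟨0, dvd_rfl⟩
    | succ n => exact ⟨_, c_dvd_a (2 * n + 1)⟩

lemma lam_o : lam o = lam a := by
  apply lam_eq isDInf_a.1 isDInf_o.1
  · intro n
    exact ⟨n + 1, (a_dvd (by omega : n ≤ 2 * n)).trans ⟨p (2 * n + 1), rfl⟩⟩
  · intro n
    cases n with
    | zero => exact ⟨0, dvd_rfl⟩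
    | succ n => exact ⟨_, c_dvd_a (2 * n)⟩

/-- The telescoping relation `1 / a (j + 1) = 2 / c j + 1 / a (j + 2)`. -/
lemma rel (j : ℕ) (k : ℝ) :
    k / a (j + 1) = 2 * (k / c j) + k / a (j + 2) := by
  have h0 : (a j : ℝ) ≠ 0 := by exact_mod_cast (a_pos j).ne'
  have h1 : (p j : ℝ) ≠ 0 := by
    have := p_pos j
    exact_mod_cast (by omega : p j ≠ 0)
  have h2 : (p (j + 1) : ℝ) ≠ 0 := by
    have := p_pos (j + 1)
    exact_mod_cast (by omega : p (j + 1) ≠ 0)
  have h3 : (p (j + 1) : ℝ) = 2 * p j + 1 := by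
    simp only [p]
    push_cast
    rfl
  have e1 : (a (j + 1) : ℝ) = a j * p j := by
    show ((a j * p j : ℕ) : ℝ) = _
    push_cast
    rfl
  have e2 : (a (j + 2) : ℝ) = a j * p j * p (j + 1) := by
    show ((a j * p j * p (j + 1) : ℕ) : ℝ) = _
    push_cast
    rfl
  have e3 : (c j : ℝ) = a j * p (j + 1) := by
    show ((a j * p (j + 1) : ℕ) : ℝ) = _
    push_cast
    rfl
  rw [e1, e2, e3]
  field_simp
  rw [h3]
  ring

/-- **Key lemma.** -/
lemma even_of (k : ℤ) (ha : ∀ n, 1 ≤ n → nrm ((k : ℝ) / a n) ≤ 1 / 8)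
    (hc : ∀ j, nrm ((k : ℝ) / c j) ≤ 1 / 8) : Even k := by
  have step : ∀ j, round ((k : ℝ) / a (j + 1)) =
      2 * round ((k : ℝ) / c j) + round ((k : ℝ) / a (j + 2)) := by
    intro j
    have h1 := ha (j + 1) (by omega)
    have h2 := ha (j + 2) (by omega)
    have h3 := hc j
    have h4 := rel j k
    unfold nrm at h1 h2 h3
    rw [abs_le] at h1 h2 h3
    have h5 : |((round ((k : ℝ) / a (j + 1)) -
        (2 * round ((k : ℝ) / c j) + round ((k : ℝ) / a (j + 2))) : ℤ) : ℝ)| < 1 := by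
      push_cast
      rw [abs_lt]
      constructor <;> linarith [h1.1, h1.2, h2.1, h2.2, h3.1, h3.2]
    have h6 := Int.abs_lt_one_iff.1 (by exact_mod_cast h5 :
      |(round ((k : ℝ) / a (j + 1)) -
        (2 * round ((k : ℝ) / c j) + round ((k : ℝ) / a (j + 2))) : ℤ)| < 1)
    omega
  have far : round ((k : ℝ) / a (2 * k.natAbs + 2 + 1)) = 0 := by
    rw [round_eq_zero_iff]
    have h1 : (2 * k.natAbs + 2 + 1 : ℕ) < a (2 * k.natAbs + 2 + 1) := a_ge _
    have h2 : ((2 * k.natAbs + 2 + 1 : ℕ) : ℝ) < a (2 * k.natAbs + 2 + 1) := by exact_mod_cast h1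
    have h3 : |(k : ℝ)| = (k.natAbs : ℝ) := by
      rw [Nat.cast_natAbs]
      push_cast
      rfl
    have h0 : (0 : ℝ) < a (2 * k.natAbs + 2 + 1) := by exact_mod_cast a_pos _
    have h4 : |(k : ℝ) / a (2 * k.natAbs + 2 + 1)| < 1 / 2 := by
      rw [abs_div, abs_of_pos h0, div_lt_iff₀ h0, h3]
      push_cast at h2
      linarith
    rw [abs_lt] at h4
    exact ⟨by linarith [h4.1], h4.2⟩
  have down : ∀ d j, j + d = 2 * k.natAbs + 2 → Even (round ((k : ℝ) / a (j + 1))) := by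
    intro d
    induction d with
    | zero =>
      intro j hj
      obtain rfl : j = 2 * k.natAbs + 2 := by omega
      rw [far]
      exact Even.zero
    | succ d ih =>
      intro j hj
      rw [step j]
      exact Even.add (even_two_mul _) (ih (j + 1) (by omega))
  have h1 := down (2 * k.natAbs + 2) 0 (by omega)
  have h2 := ha 1 le_rfl
  have e1 : (a 1 : ℝ) = 3 := by
    have : a 1 = 3 := rfl
    rw [this]
    norm_num
  have h3 : Even (round ((k : ℝ) / 3)) := by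
    have := h1
    rwa [zero_add, e1] at this
  rw [e1] at h2
  unfold nrm at h2
  rw [abs_le] at h2
  have h5 : |((k - 3 * round ((k : ℝ) / 3) : ℤ) : ℝ)| < 1 := by
    push_cast
    rw [abs_lt]
    constructor <;> linarith [h2.1, h2.2]
  have h6 := Int.abs_lt_one_iff.1 (by exact_mod_cast h5 : |(k - 3 * round ((k : ℝ) / 3) : ℤ)| < 1)
  obtain ⟨r, hr⟩ := h3
  exact ⟨3 * r, by omega⟩

/-- The character `k ↦ k / 2`. -/
noncomputable def chi : ℤ →+ AddCircle (1 : ℝ) :=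
  zmultiplesHom (AddCircle (1 : ℝ)) (((1 / 2 : ℝ)) : AddCircle (1 : ℝ))

lemma chi_apply (k : ℤ) : chi k = ((k * (1 / 2) : ℝ) : AddCircle (1 : ℝ)) := by
  show k • (((1 / 2 : ℝ)) : AddCircle (1 : ℝ)) = _
  rw [← AddCircle.coe_zsmul]
  congr 1
  simp

lemma chi_one : chi 1 = (((1 / 2 : ℝ)) : AddCircle (1 : ℝ)) := by
  rw [chi_apply]
  norm_num

lemma chi_even {k : ℤ} (h : Even k) : chi k = 0 := by
  obtain ⟨r, rfl⟩ := h
  rw [chi_apply, AddCircle.coe_eq_zero_iff]
  refine ⟨r, ?_⟩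
  simp
  ring

lemma chi_ne {k : ℤ} (h : ¬ Even k) : chi k ≠ 0 := by
  rw [Int.not_even_iff_odd] at h
  obtain ⟨r, rfl⟩ := h
  rw [chi_apply, Ne, AddCircle.coe_eq_zero_iff]
  rintro ⟨n, hn⟩
  have h1 : (2 * n : ℝ) = 2 * r + 1 := by
    simp at hn
    linarith
  have h2 : 2 * n = 2 * r + 1 := by exact_mod_cast h1
  omega

lemma cont (t : TopologicalSpace ℤ) (hg : @IsTopologicalAddGroup ℤ t _)
    (h : {k : ℤ | Even k} ∈ @nhds ℤ t 0) : @Continuous ℤ (AddCircle (1 : ℝ)) t _ chi := by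
  letI := t
  haveI := hg
  apply continuous_of_continuousAt_zero
  rw [ContinuousAt, map_zero]
  apply Filter.Tendsto.congr' _ tendsto_const_nhds
  filter_upwards [h] with k hk
  exact (chi_even hk).symm

/-- For the D-sequence `a n = ∏ i < n, (2 ^ (i + 2) - 1)`, which is in `D_∞`, the group topology
`s_a` is not compatible with `λ_a`: the character `χ : k ↦ k / 2` of `ℤ` is continuous for `s_a`,
but it is not continuous for `λ_a`, and its value at `1` is not of the form `k / a n`.  Moreover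
`χ` is already continuous for the supremum of three of the topologies `τ_c`.  The first two parts
record that `λ_b` and `τ_c` are the group topologies with the bases at `0` of the problem. -/
theorem result :
    (∀ b : ℕ → ℕ, IsD b → @IsTopologicalAddGroup ℤ (lam b) _ ∧
      (@nhds ℤ (lam b) 0).HasBasis (fun _ : ℕ => True) (fun n => {k : ℤ | (b n : ℤ) ∣ k})) ∧
    (∀ c : ℕ → ℕ, @IsTopologicalAddGroup ℤ (tau c) _ ∧
      (@nhds ℤ (tau c) 0).HasBasis (fun ε : ℝ => 0 < ε)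
        (fun ε => {k : ℤ | ∀ n, 1 ≤ n → nrm ((k : ℝ) / c n) ≤ ε})) ∧
    ∃ b : ℕ → ℕ, (∀ n, b n = ∏ i ∈ Finset.range n, (2 ^ (i + 2) - 1)) ∧ IsDInf b ∧
      ∃ χ : ℤ →+ AddCircle (1 : ℝ),
        (@Continuous ℤ (AddCircle (1 : ℝ)) (sTop b) _ χ) ∧
        (∃ c d : ℕ → ℕ, IsDInf c ∧ IsDInf d ∧ lam c = lam b ∧ lam d = lam b ∧
          @Continuous ℤ (AddCircle (1 : ℝ)) (tau b ⊓ tau c ⊓ tau d) _ χ) ∧
        (∀ (k : ℤ) (n : ℕ), χ 1 ≠ (((k : ℝ) / b n : ℝ) : AddCircle (1 : ℝ))) ∧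
        ¬ (@Continuous ℤ (AddCircle (1 : ℝ)) (lam b) _ χ) := by
  refine ⟨fun b hb => ⟨lam_group b, lam_basis' hb⟩, fun c => ⟨tau_group c, tau_basis c⟩, ?_⟩
  have hcont : @Continuous ℤ (AddCircle (1 : ℝ)) (tau a ⊓ tau e ⊓ tau o) _ chi := by
    apply cont
    · exact topologicalAddGroup_inf (topologicalAddGroup_inf (tau_group a) (tau_group e))
        (tau_group o)
    · rw [@nhds_inf ℤ (tau a ⊓ tau e) (tau o) 0, @nhds_inf ℤ (tau a) (tau e) 0]
      have h1 : V a (1 / 8) ∈ @nhds ℤ (tau a) 0 := (tau_basis a).mem_of_mem (by norm_num)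
      have h2 : V e (1 / 8) ∈ @nhds ℤ (tau e) 0 := (tau_basis e).mem_of_mem (by norm_num)
      have h3 : V o (1 / 8) ∈ @nhds ℤ (tau o) 0 := (tau_basis o).mem_of_mem (by norm_num)
      refine Filter.mem_of_superset (Filter.inter_mem_inf (Filter.inter_mem_inf h1 h2) h3) ?_
      rintro k ⟨⟨ha, he⟩, ho⟩
      apply even_of k ha
      intro j
      rcases Nat.even_or_odd' j with ⟨n, rfl | rfl⟩
      · exact ho (n + 1) (by omega)
      · exact he (n + 1) (by omega)
  refine ⟨a, ?_, isDInf_a, chi, ?_, ⟨e, o, isDInf_e, isDInf_o, lam_e, lam_o, hcont⟩, ?_, ?_⟩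
  · have hp : ∀ i, p i = 2 ^ (i + 2) - 1 := by
      intro i
      induction i with
      | zero => rfl
      | succ i ih =>
        simp only [p]
        rw [ih]
        have h1 : 0 < 2 ^ (i + 2) := by positivity
        have h2 : 2 ^ (i + 1 + 2) = 2 * 2 ^ (i + 2) := by ring
        omega
    intro n
    induction n with
    | zero => simp [a]
    | succ n ih => rw [Finset.prod_range_succ, ← ih, ← hp n]; rfl
  · apply continuous_iff_le_induced.2
    refine le_trans ?_ (continuous_iff_le_induced.1 hcont)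
    refine le_inf (le_inf ?_ ?_) ?_
    · exact iInf_le_of_le a (iInf_le_of_le isDInf_a (iInf_le_of_le rfl le_rfl))
    · exact iInf_le_of_le e (iInf_le_of_le isDInf_e (iInf_le_of_le lam_e le_rfl))
    · exact iInf_le_of_le o (iInf_le_of_le isDInf_o (iInf_le_of_le lam_o le_rfl))
  · intro k n h
    rw [chi_one, ← sub_eq_zero, ← AddCircle.coe_sub, AddCircle.coe_eq_zero_iff] at h
    obtain ⟨m, hm⟩ := h
    have h0 : (a n : ℝ) ≠ 0 := by exact_mod_cast (a_pos n).ne'
    have h1 : (a n : ℝ) = 2 * k + 2 * m * a n := by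
      have h2 : (m : ℝ) = 1 / 2 - (k : ℝ) / a n := by simpa using hm
      field_simp at h2
      linarith
    have h3 : (a n : ℤ) = 2 * k + 2 * m * a n := by exact_mod_cast h1
    have h4 := a_odd n
    have h5 : (a n : ℤ) % 2 = 1 := by omega
    have h6 : (a n : ℤ) = 2 * (k + m * a n) := by linarith
    omega
  · intro h
    letI := lam a
    have h1 : {x : AddCircle (1 : ℝ) | x ≠ ((1 / 2 : ℝ) : AddCircle (1 : ℝ))} ∈
        𝓝 (chi 0) := by
      apply isOpen_ne.mem_nhds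
      rw [map_zero]
      intro h2
      apply chi_ne (k := 1) (by decide)
      rw [chi_one, ← h2]
    have h2 := h.continuousAt (x := 0) h1
    obtain ⟨n, _, hn⟩ := (lam_basis' isDInf_a.1).mem_iff.1 h2
    have h3 := hn (show ((a n : ℤ)) ∈ {k : ℤ | (a n : ℤ) ∣ k} from dvd_rfl)
    apply h3
    have h4 := a_odd n
    obtain ⟨r, hr⟩ : ∃ r, a n = 2 * r + 1 := ⟨a n / 2, by omega⟩
    show chi (a n : ℤ) = _
    rw [hr]
    push_cast
    rw [map_add, chi_even (even_two_mul _), zero_add, chi_one]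

end Pool.Agent.Results.MP_4ba7b3_gt.SupNotCompatible
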